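import Pool.Agent.NH95.AX.Ex
import Pool.Agent.NH95.AX.Lat

/-!
Axisymmetric Navier-Stokes flows with swirl, up to a possible blow-up time `T`: an upper bound of
the radial derivative of the pressure, only at the space-time records of the inflow towards the
axis, gives a Hölder bound of the circulation at the axis which is uniform up to the time `T`.

`V = Fin 3 → ℝ` with the maximum norm. See the claim file for the definitions.
-/

open MeasureTheory Set Metric Filter Topology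

namespace Pool.Agent.Results.MP_09540e_an.InflowRecords

open H459R3.NS W221.NS Pool.Agent.TH305.AX

/-- The distance `ρ` of `x` to the axis of symmetry. -/
noncomputable def axisDist (x : V) : ℝ := √(x 0 ^ 2 + x 1 ^ 2)

/-- `-ρ v_ρ`, where `v_ρ` is the radial component of the field `v`. -/
def inflow (v : V → V) (x : V) : ℝ := -(x 0 * v x 0 + x 1 * v x 1)

/-- `ρ ∂_ρ P`. -/
noncomputable def radialDeriv (P : V → ℝ) (x : V) : ℝ := x 0 * pd 0 P x + x 1 * pd 1 P x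

/-- `|∇Γ| ^ 2`, where `Γ = circ v` is the circulation of `v`. -/
noncomputable def circGradSq (v : V → V) (x : V) : ℝ := ∑ j, pd j (circ v) x ^ 2

/-- `-ρ v_ρ + lam Γ ^ 2`. -/
def strength (lam : ℝ) (v : V → V) (x : V) : ℝ := inflow v x + lam * circ v x ^ 2

/-- `(-ρ u_ρ + lam Γ ^ 2 - c) / φ(h(t) ρ)`. -/
noncomputable def ratio (c lam : ℝ) (φ h : ℝ → ℝ) (u : ℝ → V → V) (t : ℝ) (x : V) : ℝ :=
  (strength lam (u t) x - c) / φ (h t * axisDist x)

/-- At the point `(t, x)`, with `0 < ρ(x) < r₀`, the ratio is larger than `K`, and not smaller than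
at all points `(s, y)` with `s ≤ t` and `0 < ρ(y) ≤ r₀`. -/
def IsRecord (r₀ K c lam : ℝ) (φ h : ℝ → ℝ) (u : ℝ → V → V) (t : ℝ) (x : V) : Prop :=
  0 < axisDist x ∧ axisDist x < r₀ ∧ K < ratio c lam φ h u t x ∧
    ∀ s ∈ Icc 0 t, ∀ y, 0 < axisDist y → axisDist y ≤ r₀ →
      ratio c lam φ h u s y ≤ ratio c lam φ h u t x

/-- `φ` is of class `C²`, positive, nondecreasing and concave on `(0, ∞)`, and `φ(0+) = 0`. -/
def Profile (φ : ℝ → ℝ) : Prop :=
  ContDiffOn ℝ 2 φ (Ioi 0) ∧ Tendsto φ (𝓝[>] 0) (𝓝 0) ∧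
    ∀ y, 0 < y → 0 < φ y ∧ 0 ≤ deriv φ y ∧ deriv (deriv φ) y ≤ 0

/-- `h` is continuous on `[0, T)`, `h(0) > 0`, and `h' ≥ 0` on `(0, T)`. -/
def Rate (T : ℝ) (h : ℝ → ℝ) : Prop :=
  ContinuousOn h (Ico 0 T) ∧ 0 < h 0 ∧ ∀ t ∈ Ioo 0 T, DifferentiableAt ℝ h t ∧ 0 ≤ deriv h t

/-- `h ≤ C / √(T - t) + b(t)` on `[0, T)`, where `b` is continuous and square integrable. -/
def TypeI (T : ℝ) (h : ℝ → ℝ) : Prop :=
  ∃ (C I : ℝ) (b : ℝ → ℝ), ContinuousOn b (Ico 0 T) ∧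
    (∀ t ∈ Ico 0 T, ∫ s in (0 : ℝ)..t, b s ^ 2 ≤ I) ∧ ∀ t ∈ Ico 0 T, h t ≤ C / √(T - t) + b t

/-- Either `u` is bounded at distance `r₀` from the axis, or the energy `∫ |u| ^ 2` is bounded and
`∫∫ |∇u| ^ 2` over `(0, T) × ℝ³` is finite. -/
def Confined (T r₀ : ℝ) (u : ℝ → V → V) : Prop :=
  (∃ M : ℝ, ∀ t ∈ Ico 0 T, ∀ x, axisDist x = r₀ → ‖u t x‖ ≤ M) ∨
    ((∃ E : ℝ, ∀ t ∈ Ioo 0 T, Integrable (nsq (u t)) ∧ ∫ x, nsq (u t) x ≤ E) ∧
      ∫⁻ t in Ioo 0 T, ∫⁻ x, ENNReal.ofReal (gsq (u t) x) ≠ ⊤)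

/-- The conclusion: for `ρ ≤ r₀`, `t < T` one has `-ρ u_ρ + lam Γ ^ 2 ≤ c + A φ(h(t) ρ)`; and if
`c < 2 ν` and `h` is of type I, then `|Γ| ≤ A' ρ ^ β` with `β > 0`. Here `A`, `A'` and `β` do not
depend on the time. -/
def Bounds (ν T r₀ c lam : ℝ) (φ h : ℝ → ℝ) (u : ℝ → V → V) : Prop :=
  (∃ A : ℝ, ∀ t ∈ Ico 0 T, ∀ x, 0 < axisDist x → axisDist x ≤ r₀ →
    strength lam (u t) x ≤ c + A * φ (h t * axisDist x)) ∧
  (c < 2 * ν → TypeI T h → ∃ β A' : ℝ, 0 < β ∧ ∀ t ∈ Ico 0 T, ∀ x, axisDist x ≤ r₀ →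
    |circ (u t) x| ≤ A' * axisDist x ^ β)

/-- Let `(u, p)` be a smooth axisymmetric solution of the Navier-Stokes equations with viscosity
`ν` on `[0, T) × ℝ³`, with `u → 0` at infinity, uniformly for the times in `[0, T']` for each
`T' < T` (`T` may be the blow-up time); let `u` be bounded at distance `r₀` from the axis, or have
finite energy and dissipation. Let `Γ = circ (u t)`, let `ρ` be the distance to the axis, `c > 0`,
`φ` a profile, `h` a rate, and write `y = h(t) ρ`. Then the conclusion `Bounds` holds in the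
following two cases.

First: `lam ≥ 0`, and at all records `(t, x)` of the ratio `R = (-ρ u_ρ + lam Γ ^ 2 - c) / φ(h ρ)`
with `R > K`, `ρ ∂_ρ p ≤ u_ρ ^ 2 + u_θ ^ 2 + 2 lam ν |∇Γ| ^ 2
+ R (y φ'(y) (h' / h + ρ u_ρ / ρ ^ 2) + ν (y φ'(y) - y ^ 2 φ''(y)) / ρ ^ 2)`.

Second, the explicit form: `K ≥ 0`, and at all records of the ratio with `lam = 0` and `R > K`,
`ρ ∂_ρ p ≤ u_θ ^ 2 + (1 - l) u_ρ ^ 2 + l c ^ 2 / ρ ^ 2 + K y φ'(y) (1 / ρ ^ 2 + h' / h)`, where
`l = y φ'(y) / φ(y)`.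

The functions `y ^ α`, `0 < α ≤ 1` (for which `l = α`), and `log(exp(κ + 1) + 1 / y) ^ (-κ)`,
`κ > 0` (for which `l` tends to `0` as `y` tends to `0`), are profiles. -/
theorem result (ν T r₀ c : ℝ) (hν : 0 < ν) (hr₀ : 0 < r₀) (hc : 0 < c) (u : ℝ → V → V)
    (p : ℝ → V → ℝ) (hS : AxSol ν T u p) (hu : Confined T r₀ u) (φ h : ℝ → ℝ)
    (hφ : Profile φ) (hh : Rate T h) :
    (∀ K lam : ℝ, 0 ≤ lam →
      (∀ t ∈ Ioo 0 T, ∀ x, IsRecord r₀ K c lam φ h u t x →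
        radialDeriv (p t) x ≤ (u t x 0 ^ 2 + u t x 1 ^ 2) + 2 * lam * ν * circGradSq (u t) x
          + ratio c lam φ h u t x *
            ((h t * axisDist x) * deriv φ (h t * axisDist x) *
                (deriv h t / h t - inflow (u t) x / axisDist x ^ 2)
              + ν * ((h t * axisDist x) * deriv φ (h t * axisDist x)
                - (h t * axisDist x) ^ 2 * deriv (deriv φ) (h t * axisDist x))
                / axisDist x ^ 2)) →
      Bounds ν T r₀ c lam φ h u) ∧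
    (∀ K : ℝ, 0 ≤ K →
      (∀ t ∈ Ioo 0 T, ∀ x, IsRecord r₀ K c 0 φ h u t x →
        radialDeriv (p t) x ≤ (circ (u t) x / axisDist x) ^ 2 + (inflow (u t) x / axisDist x) ^ 2
          - (h t * axisDist x) * deriv φ (h t * axisDist x) / φ (h t * axisDist x) *
            ((inflow (u t) x / axisDist x) ^ 2 - (c / axisDist x) ^ 2)
          + K * ((h t * axisDist x) * deriv φ (h t * axisDist x)) *
            (1 / axisDist x ^ 2 + deriv h t / h t)) →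
      Bounds ν T r₀ c 0 φ h u) ∧
    (∀ α : ℝ, 0 < α → α ≤ 1 → Profile fun y => y ^ α) ∧
    ∀ κ : ℝ, 0 < κ → Profile fun y => Real.log (Real.exp (κ + 1) + 1 / y) ^ (-κ) := by
  have hP : Pool.Agent.NH95.AX.Prof φ := hφ
  obtain ⟨hhc, hh0, hhd⟩ := hh
  have hmono : MonotoneOn h (Ico 0 T) := by
    refine monotoneOn_of_deriv_nonneg (convex_Ico 0 T) hhc ?_ ?_
    · rw [interior_Ico]
      exact fun t ht => (hhd t ht).1.differentiableWithinAt
    · rw [interior_Ico]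
      exact fun t ht => (hhd t ht).2
  have hhm : ∀ t ∈ Ico 0 T, h 0 ≤ h t := fun t ht =>
    hmono ⟨le_rfl, ht.1.trans_lt ht.2⟩ ht ht.1
  obtain ⟨M, hM⟩ : ∃ M : ℝ, ∀ t ∈ Ico 0 T, ∀ x, √(sg x) = r₀ → ‖u t x‖ ≤ M := by
    rcases hu with ⟨M, hM⟩ | ⟨⟨E, hE⟩, hfin⟩
    · exact ⟨M, hM⟩
    · exact Pool.Agent.NH95.AX.latB hν hS (fun t ht => (hE t ht).1) (fun t ht => (hE t ht).2)
        hfin hr₀
  have hsq : ∀ x : V, axisDist x ^ 2 = sg x := fun x =>
    Real.sq_sqrt (Pool.Agent.TH305.AX.sg_nonneg x)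
  -- the second conclusion
  have hB : ∀ lam : ℝ, 0 ≤ lam → (∃ A : ℝ, 0 < A ∧ ∀ t ∈ Ico 0 T, ∀ x, 0 < axisDist x →
      axisDist x ≤ r₀ → strength lam (u t) x ≤ c + A * φ (h t * axisDist x)) →
      Bounds ν T r₀ c lam φ h u := by
    intro lam hlam ⟨A, hA, hAb⟩
    refine ⟨⟨A, hAb⟩, ?_⟩
    rintro hc2 ⟨C, I, b, hb, hI, hhb⟩
    obtain ⟨β, hβ, A', hA'⟩ := Pool.Agent.NH95.AX.mainF2 hν hS (lam := lam) (C := |C|) (I := I)
      (b := b) (H := h) hc2 hlam hr₀ hM hP (fun t ht => hh0.trans_le (hhm t ht)) hA.le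
      (abs_nonneg C) hb hI (fun t ht => (hhb t ht).trans (by
        have : C / √(T - t) ≤ |C| / √(T - t) :=
          div_le_div_of_nonneg_right (le_abs_self C) (Real.sqrt_nonneg _)
        linarith)) hAb
    exact ⟨β, A', hβ, hA'⟩
  refine ⟨?_, ?_, fun α h0 h1 => Pool.Agent.NH95.AX.prof_pow h0 h1,
    fun κ h0 => Pool.Agent.NH95.AX.prof_log h0⟩
  · intro K lam hlam hcond
    refine hB lam hlam ?_
    refine Pool.Agent.NH95.AX.mainF1 hν hS (K := K) hc hlam hr₀ hM hP hh0 hhm hhc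
      (fun t ht => (hhd t ht).1) ?_
    intro t ht x h0 h1 h2 h3
    have h4 := hcond t ht x ⟨h0, h1, h2, h3⟩
    rw [hsq] at h4
    have e : deriv h t / h t - inflow (u t) x / sg x
        = deriv h t / h t + Pool.Agent.NH95.AX.rad (u t) x / sg x := by
      unfold inflow Pool.Agent.NH95.AX.rad
      ring
    rw [e] at h4
    exact h4
  · intro K hK hcond
    refine hB 0 le_rfl ?_
    refine Pool.Agent.NH95.AX.mainF3 hν hS (K := K) hc hr₀ hK hM hP hh0 hhm hhc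
      (fun t ht => (hhd t ht).1) (fun t ht => (hhd t ht).2) ?_
    intro t ht x h0 h1 h2 h3
    have h4 := hcond t ht x ⟨h0, h1, h2, h3⟩
    rw [hsq] at h4
    have e : (inflow (u t) x / axisDist x) ^ 2
        = (Pool.Agent.NH95.AX.rad (u t) x / axisDist x) ^ 2 := by
      unfold inflow Pool.Agent.NH95.AX.rad
      ring
    rw [e] at h4
    exact h4

end Pool.Agent.Results.MP_09540e_an.InflowRecords
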