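import Pool.Agent.NH42.AX.Crit3

/-!
Axisymmetric Navier-Stokes flows with swirl, up to a possible blow-up time `T`: it is enough that,
near the axis and only at the points where the circulation is not yet small, the radial velocity is
bounded FROM BELOW by a bound of type I (or a square integrable one) to have a decay of the
circulation at the axis which is uniform up to the time `T`: a Hölder bound, or the bound
`A |log ρ| ^ (-a)`, which for `a > 1` excludes a singularity at time `T` by the known criterion.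

`V = Fin 3 → ℝ` with the maximum norm. See the claim file for the definitions.
-/

open MeasureTheory Set Metric

namespace Pool.Agent.Results.MP_09540e_an.OneSidedInflow

open H459R3.NS W221.NS Pool.Agent.TH305.AX

/-- The distance `ρ` of `x` to the axis of symmetry. -/
noncomputable def axisDist (x : V) : ℝ := √(x 0 ^ 2 + x 1 ^ 2)

/-- `ρ` times the radial component of the field `v`. -/
def radial (v : V → V) (x : V) : ℝ := x 0 * v x 0 + x 1 * v x 1

/-- `b`, `B` are continuous on `[0, T)`, `B ≥ 0`, and `b ^ 2 + B` is integrable on `(0, T)`. -/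
def Admissible (T : ℝ) (b B : ℝ → ℝ) : Prop :=
  ContinuousOn b (Ico 0 T) ∧ ContinuousOn B (Ico 0 T) ∧ (∀ t ∈ Ico 0 T, 0 ≤ B t) ∧
    ∃ I : ℝ, ∀ t ∈ Ico 0 T, ∫ s in (0 : ℝ)..t, (b s ^ 2 + B s) ≤ I

/-- The circulation is bounded at time `0`, or it is bounded at the points of distance `r` to the
axis. -/
def CircBounded (T r : ℝ) (u : ℝ → V → V) : Prop :=
  (∃ M : ℝ, ∀ x, |circ (u 0) x| ≤ M) ∨
    ∃ M : ℝ, ∀ t ∈ Ico 0 T, ∀ x, axisDist x = r → |circ (u t) x| ≤ M

/-- Let `(u, p)` be a smooth axisymmetric solution of the Navier-Stokes equations with viscosity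
`ν` on `[0, T) × ℝ³`, bounded on `[0, T'] × ℝ³` for each `T' < T` (`T` may be the blow-up time),
with circulation `Γ = circ (u t)`, which is bounded at time `0` or at distance `r₀` from the axis.
Let `ρ` be the distance to the axis, `C ≥ 0`, and let `b ^ 2 + B` be integrable on `(0, T)`.

First, let `μ > 0` and let `F` be continuous, concave and nondecreasing on `[0, ∞)`, and positive on
`(0, ∞)`. If at all points with `0 < ρ < r₀` and `|Γ| > F(ρ)`
`ρ u_ρ ≥ -(2 - μ) ν - (C / √(T - t) + b(t)) ρ - B(t) ρ ^ 2`, then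
`|Γ| ≤ A F(ρ ^ β)` for `ρ ≤ r₀` and all times `t < T`, where `β > 0` depends on `ν`, `μ`, `C` only
and `A` does not depend on the time.

Second, let `a > 0` and `r₀ < 1`. There is `κ`, which depends on `ν`, `a`, `C` only, with the
following property. If at all points with `0 < ρ < r₀` and `|Γ| > K |log ρ| ^ (-a)`
`ρ u_ρ ≥ -2 ν + κ ν / |log ρ| - (C / √(T - t) + b(t)) ρ - B(t) ρ ^ 2`, then
`|Γ| ≤ A |log ρ| ^ (-a)` for `0 < ρ ≤ r₀` and all times `t < T`, with `A` independent of the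
time. -/
theorem result (ν : ℝ) (hν : 0 < ν) :
    (∀ μ C : ℝ, 0 < μ → 0 ≤ C → ∃ β : ℝ, 0 < β ∧
      ∀ (T : ℝ) (u : ℝ → V → V) (p : ℝ → V → ℝ), BSol ν T u p →
      ∀ (F b B : ℝ → ℝ) (r₀ : ℝ), 0 < r₀ → CircBounded T r₀ u → Admissible T b B →
      ContinuousOn F (Ici 0) → ConcaveOn ℝ (Ici 0) F → MonotoneOn F (Ici 0) →
      (∀ y, 0 < y → 0 < F y) →
      (∀ t ∈ Ioo 0 T, ∀ x, 0 < axisDist x → axisDist x < r₀ →
        F (axisDist x) < |circ (u t) x| →
        -((2 - μ) * ν) - (C / √(T - t) + b t) * axisDist x - B t * axisDist x ^ 2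
          ≤ radial (u t) x) →
      ∃ A : ℝ, ∀ t ∈ Ico 0 T, ∀ x, axisDist x ≤ r₀ →
        |circ (u t) x| ≤ A * F (axisDist x ^ β)) ∧
    ∀ a C : ℝ, 0 < a → 0 ≤ C → ∃ κ : ℝ,
      ∀ (T : ℝ) (u : ℝ → V → V) (p : ℝ → V → ℝ), BSol ν T u p →
      ∀ (b B : ℝ → ℝ) (K r₀ : ℝ), 0 < r₀ → r₀ < 1 → CircBounded T r₀ u → Admissible T b B →
      (∀ t ∈ Ioo 0 T, ∀ x, 0 < axisDist x → axisDist x < r₀ →
        K * |Real.log (axisDist x)| ^ (-a) < |circ (u t) x| →
        -(2 * ν) + κ * ν / |Real.log (axisDist x)| - (C / √(T - t) + b t) * axisDist x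
          - B t * axisDist x ^ 2 ≤ radial (u t) x) →
      ∃ A : ℝ, ∀ t ∈ Ico 0 T, ∀ x, 0 < axisDist x → axisDist x ≤ r₀ →
        |circ (u t) x| ≤ A * |Real.log (axisDist x)| ^ (-a) := by
  constructor
  · intro μ C hμ hC
    obtain ⟨β, hβ, H⟩ := Pool.Agent.NH42.AX.typeOne hν hμ hC
    refine ⟨β, hβ, ?_⟩
    intro T u p h F b B r₀ hr₀ hM ⟨hb, hB, hB0, I, hI⟩ hFc hFk hFm hFpos hcond
    have hF0 : 0 ≤ F 0 := by
      have h1 : ContinuousWithinAt F (Ioi 0) 0 :=
        (hFc 0 (mem_Ici.2 le_rfl)).mono Ioi_subset_Ici_self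
      refine ge_of_tendsto h1 ?_
      filter_upwards [self_mem_nhdsWithin] with y hy
      exact (hFpos y hy).le
    obtain ⟨M, hM'⟩ : ∃ M : ℝ, (∀ x, |circ (u 0) x| ≤ M) ∨
        ∀ t ∈ Ico 0 T, ∀ x, √(sg x) = r₀ → |circ (u t) x| ≤ M := by
      rcases hM with ⟨M, hM⟩ | ⟨M, hM⟩
      · exact ⟨M, Or.inl hM⟩
      · exact ⟨M, Or.inr hM⟩
    exact H T u p h F b B M r₀ I hr₀ hFk hFm hFc hF0 hFpos hb hB hB0 hI hM' hcond
  · intro a C ha hC
    obtain ⟨κ, hκ, H⟩ := Pool.Agent.NH42.AX.typeLog hν (show 0 < C + 1 by linarith) ha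
    refine ⟨κ, ?_⟩
    intro T u p h b B K r₀ hr₀ hr₁ hM ⟨hb, hB, hB0, I, hI⟩ hcond
    obtain ⟨M, hM'⟩ : ∃ M : ℝ, (∀ x, |circ (u 0) x| ≤ M) ∨
        ∀ t ∈ Ico 0 T, ∀ x, √(sg x) = r₀ → |circ (u t) x| ≤ M := by
      rcases hM with ⟨M, hM⟩ | ⟨M, hM⟩
      · exact ⟨M, Or.inl hM⟩
      · exact ⟨M, Or.inr hM⟩
    have habs : ∀ x : V, 0 < axisDist x → axisDist x ≤ r₀ →
        |Real.log (axisDist x)| = -Real.log √(sg x) := by
      intro x h0 h1
      exact abs_of_nonpos (Real.log_nonpos h0.le (h1.trans hr₁.le))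
    obtain ⟨A, hA⟩ := H T u p h b B K M r₀ I hr₀ hr₁ hb hB hB0 hI hM' (by
      intro t ht x h0 h1 h2
      have h3 := hcond t ht x h0 h1
      rw [habs x h0 h1.le] at h3
      refine le_trans ?_ (h3 h2)
      have h4 : 0 < √(T - t) := Real.sqrt_pos.2 (by linarith [ht.2])
      have h5 : C / √(T - t) * √(sg x) ≤ (C + 1) / √(T - t) * √(sg x) := by
        apply mul_le_mul_of_nonneg_right _ (Real.sqrt_nonneg _)
        apply div_le_div_of_nonneg_right _ h4.le
        linarith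
      have e : axisDist x = √(sg x) := rfl
      rw [e]
      linarith)
    refine ⟨A, fun t ht x h0 h1 => ?_⟩
    rw [habs x h0 h1]
    exact hA t ht x h0 h1

end Pool.Agent.Results.MP_09540e_an.OneSidedInflow
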