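import Pool.Agent.NH62.AX.Fin

/-!
Axisymmetric Navier-Stokes flows with swirl, up to a possible blow-up time `T`: the circulation
decays at the axis, uniformly up to the time `T`, faster than the known criterion demands, already
if, at the points where it is not yet small, the radial velocity is bounded FROM BELOW by
`-ν / ρ - g(t)`, where `g` may be SUPERCRITICAL, with the constant of the law of the iterated
logarithm, for instance `g(t) = √(κ ν log log (1 / (T - t)) / (T - t))` with `κ < 1`. The same for a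
neighbourhood of one point of the axis, and a Liouville theorem for ancient solutions.

`V = Fin 3 → ℝ` with the maximum norm. See the claim file for the definitions.
-/

open MeasureTheory Set Metric Filter

namespace Pool.Agent.Results.MP_09540e_an.SupercriticalInflow

open H459R3.NS W221.NS Pool.Agent.TH305.AX

/-- The distance `ρ` of `x` to the axis of symmetry. -/
noncomputable def axisDist (x : V) : ℝ := √(x 0 ^ 2 + x 1 ^ 2)

/-- `max (ρ, |z - z₀|)`, for the point of height `z₀` of the axis. -/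
noncomputable def pointDist (z₀ : ℝ) (x : V) : ℝ := max (axisDist x) |x 2 - z₀|

/-- `ρ` times the radial component of the field `v`. -/
def radial (v : V → V) (x : V) : ℝ := x 0 * v x 0 + x 1 * v x 1

/-- `φ` is positive and nonincreasing on `(0, ∞)` and `φ(x + 1) ≥ (1 - x ^ (-κ')) φ(x)` for all
large `x`. -/
def SlowDecay (κ' : ℝ) (φ : ℝ → ℝ) : Prop :=
  (∀ x, 0 < x → 0 < φ x) ∧ AntitoneOn φ (Ioi 0) ∧
    ∀ᶠ x in atTop, (1 - x ^ (-κ')) * φ x ≤ φ (x + 1)

/-- `g ≥ 0` has a primitive on `(t₁, T)` which increases at most by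
`√(4 κ ν s log log (1 / s))` on all short intervals of length `s`. -/
def LilDrift (ν κ t₁ T : ℝ) (g : ℝ → ℝ) : Prop :=
  ∃ (G : ℝ → ℝ) (s₁ : ℝ), 0 < s₁ ∧ (∀ t ∈ Ioo t₁ T, HasDerivAt G (g t) t ∧ 0 ≤ g t) ∧
    ∀ t ∈ Ioo t₁ T, ∀ t' ∈ Ioo t₁ T, t < t' → t' - t < s₁ →
      G t' - G t ≤ √(4 * κ * ν * (t' - t) * Real.log (Real.log (1 / (t' - t))))

/-- The admissible inflow speeds: `LilDrift`, or the explicit rate
`√(κ ν log log (1 / (T - t)) / (T - t))`. -/
def Speed (ν κ t₁ T : ℝ) (g : ℝ → ℝ) : Prop :=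
  LilDrift ν κ t₁ T g ∨
    ∀ t ∈ Ioo t₁ T, g t = √(κ * ν * Real.log (Real.log (1 / (T - t))) / (T - t))

/-- `B ≥ 0` has a uniformly continuous primitive on `(t₁, T)` (for instance, `B` is continuous and
integrable). -/
def Strain (t₁ T : ℝ) (B : ℝ → ℝ) : Prop :=
  ∃ J : ℝ → ℝ, (∀ t ∈ Ioo t₁ T, HasDerivAt J (B t) t ∧ 0 ≤ B t) ∧
    UniformContinuousOn J (Ioo t₁ T)

/-- `g ≥ 0` has a primitive on `(-∞, 0)` which increases at most by `√(4 κ ν s log log s)` on all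
long intervals of length `s`. -/
def AncientDrift (ν κ : ℝ) (g : ℝ → ℝ) : Prop :=
  ∃ (G : ℝ → ℝ) (s₁ : ℝ), (∀ t < 0, HasDerivAt G (g t) t ∧ 0 ≤ g t) ∧
    ∀ t t', t < t' → t' < 0 → s₁ ≤ t' - t →
      G t' - G t ≤ √(4 * κ * ν * (t' - t) * Real.log (Real.log (t' - t)))

/-- Let `(u, p)` be a smooth axisymmetric solution of the Navier-Stokes equations with viscosity
`ν` on `[0, T) × ℝ³`, bounded on `[0, T'] × ℝ³` for each `T' < T` (`T` may be the blow-up time),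
with circulation `Γ = circ (u t)`. Let `κ < 1`, `κ < κ'`, let `φ` be slowly decreasing and let `g`
and `B` be admissible.

First, let `Γ` be bounded for `ρ < r₀`. If `ρ u_ρ ≥ -ν - g(t) ρ - B(t) ρ ^ 2` at all points
with `0 < ρ < r₀` and `|Γ| > φ(|log ρ|)`, `t₁ < t < T`, then `|Γ| ≤ A φ(|log ρ|)` for all
`0 < ρ < r₀` and all times `t₂ ≤ t < T`, with `A` independent of the time.

Second, the same near the point of height `z₀` of the axis, with `d = max (ρ, |z - z₀|)` in place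
of `ρ`, if also `(z - z₀) u_z ≥ -g(t) |z - z₀| - B(t) |z - z₀| ^ 2` at the same points.

Third, let `u` be an ancient solution in the same class, with bounded `Γ`. If for each `δ > 0`
there are `κ < 1` and a `g` which is admissible at `-∞` with `ρ u_ρ ≥ -ν - g(t) ρ` at all points
with `|Γ| > δ`, then `Γ = 0`.

Fourth, examples of `φ`: `K x ^ (-a)` for all `κ' < 1`, and `exp (-x ^ b)` for `b < 1 - κ'`. -/
theorem result (ν : ℝ) (hν : 0 < ν) :
    (∀ (T : ℝ) (u : ℝ → V → V) (p : ℝ → V → ℝ), BSol ν T u p →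
      ∀ (t₁ κ κ' r₀ M : ℝ) (φ g B : ℝ → ℝ), 0 ≤ t₁ → t₁ < T → 0 < κ → κ < κ' → κ < 1 →
      0 < r₀ → r₀ ≤ 1 → SlowDecay κ' φ → Speed ν κ t₁ T g → Strain t₁ T B →
      ((∀ t ∈ Ioo t₁ T, ∀ x, axisDist x < r₀ → |circ (u t) x| ≤ M) →
        (∀ t ∈ Ioo t₁ T, ∀ x, 0 < axisDist x → axisDist x < r₀ →
          φ |Real.log (axisDist x)| < |circ (u t) x| →
          -ν - g t * axisDist x - B t * axisDist x ^ 2 ≤ radial (u t) x) →
        ∃ A : ℝ, ∃ t₂ < T, ∀ t ∈ Ico t₂ T, ∀ x, 0 < axisDist x → axisDist x < r₀ →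
          |circ (u t) x| ≤ A * φ |Real.log (axisDist x)|) ∧
      ∀ z₀ : ℝ, (∀ t ∈ Ioo t₁ T, ∀ x, pointDist z₀ x < r₀ → |circ (u t) x| ≤ M) →
        (∀ t ∈ Ioo t₁ T, ∀ x, 0 < axisDist x → pointDist z₀ x < r₀ →
          φ |Real.log (pointDist z₀ x)| < |circ (u t) x| →
          -ν - g t * axisDist x - B t * axisDist x ^ 2 ≤ radial (u t) x ∧
          -(g t * |x 2 - z₀|) - B t * |x 2 - z₀| ^ 2 ≤ (x 2 - z₀) * u t x 2) →
        ∃ A : ℝ, ∃ t₂ < T, ∀ t ∈ Ico t₂ T, ∀ x, 0 < pointDist z₀ x → pointDist z₀ x < r₀ →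
          |circ (u t) x| ≤ A * φ |Real.log (pointDist z₀ x)|) ∧
    (∀ (u : ℝ → V → V) (p : ℝ → V → ℝ),
      (∀ t₀ < 0, BSol ν (-t₀) (fun t => u (t₀ + t)) (fun t => p (t₀ + t))) →
      ∀ M : ℝ, (∀ t < 0, ∀ x, |circ (u t) x| ≤ M) →
      (∀ δ > 0, ∃ (κ : ℝ) (g : ℝ → ℝ), 0 < κ ∧ κ < 1 ∧ AncientDrift ν κ g ∧
        ∀ t < 0, ∀ x, 0 < axisDist x → δ < |circ (u t) x| →
          -ν - g t * axisDist x ≤ radial (u t) x) →
      ∀ t < 0, ∀ x, circ (u t) x = 0) ∧
    (∀ κ' a K : ℝ, κ' < 1 → 0 < a → 0 < K → SlowDecay κ' fun x => K * x ^ (-a)) ∧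
    ∀ κ' b : ℝ, 0 < κ' → 0 < b → b < 1 - κ' → SlowDecay κ' fun x => Real.exp (-x ^ b) := by
  refine ⟨?_, ?_, fun κ' a K h1 h2 h3 => Pool.Agent.NH62.AX.slow_pow h1 h2 h3,
    fun κ' b h1 h2 h3 => Pool.Agent.NH62.AX.slow_exp h2 h3 h1⟩
  · intro T u p h t₁ κ κ' r₀ M φ g B ht₁ htT hκ hκκ hκ1 hr0 hr1 ⟨f1, f2, f3⟩ hg ⟨J, hJ, hJu⟩
    have hrc0 : ∀ x : V, Pool.Agent.NH62.AX.rc 0 0 x = axisDist x := by
      intro x
      unfold Pool.Agent.NH62.AX.rc
      rw [zero_mul]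
      exact max_eq_left (Real.sqrt_nonneg _)
    have hrc1 : ∀ (z₀ : ℝ) (x : V), Pool.Agent.NH62.AX.rc 1 z₀ x = pointDist z₀ x := by
      intro z₀ x
      unfold Pool.Agent.NH62.AX.rc
      rw [one_mul]
      rfl
    have hmid : t₁ < (t₁ + T) / 2 ∧ (t₁ + T) / 2 < T := ⟨by linarith, by linarith⟩
    constructor
    · intro hM hcond
      rcases hg with ⟨G, s₁, hs₁, hG, hmod⟩ | hg
      · obtain ⟨A, hA⟩ := Pool.Agent.NH62.AX.fin1 (c := 0) (z₀ := 0) (r₀ := r₀) (M₀ := M) hν h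
          (Or.inl rfl) ht₁ hmid.1 hκ hκκ hκ1 hr0 hr1 hs₁ f1 f2 f3
          (fun t ht x hx => hM t ht x (by rwa [hrc0] at hx)) (fun t ht => (hG t ht).1)
          (fun t ht => (hG t ht).2) hmod (fun t ht => (hJ t ht).1) (fun t ht => (hJ t ht).2) hJu
          (fun t ht x h0 h1 h2 => ⟨hcond t ht x h0 (by rwa [hrc0] at h1) (by rwa [hrc0] at h2),
            fun h01 => absurd h01 (by norm_num)⟩)
        refine ⟨A, _, hmid.2, fun t ht x h0 h1 => ?_⟩
        have := hA t ht x (by rwa [hrc0]) (by rwa [hrc0])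
        rwa [hrc0] at this
      · obtain ⟨A, t₂, ht₂, hA⟩ := Pool.Agent.NH62.AX.fin2 (c := 0) (z₀ := 0) (r₀ := r₀) (M₀ := M)
          hν h (Or.inl rfl) ht₁ htT hκ hκκ hκ1 hr0 hr1 f1 f2 f3
          (fun t ht x hx => hM t ht x (by rwa [hrc0] at hx))
          (fun t ht => (hJ t ht).1) (fun t ht => (hJ t ht).2) hJu
          (fun t ht x h0 h1 h2 => ⟨by
            rw [← hg t ht]
            exact hcond t ht x h0 (by rwa [hrc0] at h1) (by rwa [hrc0] at h2),
            fun h01 => absurd h01 (by norm_num)⟩)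
        refine ⟨A, t₂, ht₂, fun t ht x h0 h1 => ?_⟩
        have := hA t ht x (by rwa [hrc0]) (by rwa [hrc0])
        rwa [hrc0] at this
    · intro z₀ hM hcond
      rcases hg with ⟨G, s₁, hs₁, hG, hmod⟩ | hg
      · obtain ⟨A, hA⟩ := Pool.Agent.NH62.AX.fin1 (c := 1) (z₀ := z₀) (r₀ := r₀) (M₀ := M) hν h
          (Or.inr rfl) ht₁ hmid.1 hκ hκκ hκ1 hr0 hr1 hs₁ f1 f2 f3
          (fun t ht x hx => hM t ht x (by rwa [hrc1] at hx)) (fun t ht => (hG t ht).1)
          (fun t ht => (hG t ht).2) hmod (fun t ht => (hJ t ht).1) (fun t ht => (hJ t ht).2) hJu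
          (fun t ht x h0 h1 h2 => by
            rw [hrc1] at h1 h2
            obtain ⟨c1, c2⟩ := hcond t ht x h0 h1 h2
            exact ⟨c1, fun _ => c2⟩)
        refine ⟨A, _, hmid.2, fun t ht x h0 h1 => ?_⟩
        have := hA t ht x (by rwa [hrc1]) (by rwa [hrc1])
        rwa [hrc1] at this
      · obtain ⟨A, t₂, ht₂, hA⟩ := Pool.Agent.NH62.AX.fin2 (c := 1) (z₀ := z₀) (r₀ := r₀) (M₀ := M)
          hν h (Or.inr rfl) ht₁ htT hκ hκκ hκ1 hr0 hr1 f1 f2 f3
          (fun t ht x hx => hM t ht x (by rwa [hrc1] at hx))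
          (fun t ht => (hJ t ht).1) (fun t ht => (hJ t ht).2) hJu
          (fun t ht x h0 h1 h2 => by
            rw [hrc1] at h1 h2
            obtain ⟨c1, c2⟩ := hcond t ht x h0 h1 h2
            rw [hg t ht] at c1 c2
            exact ⟨c1, fun _ => c2⟩)
        refine ⟨A, t₂, ht₂, fun t ht x h0 h1 => ?_⟩
        have := hA t ht x (by rwa [hrc1]) (by rwa [hrc1])
        rwa [hrc1] at this
  · intro u p h M hM hcond t ht x
    have key : ∀ δ > 0, |circ (u t) x| ≤ 0 + δ := by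
      intro δ hδ
      obtain ⟨κ, g, hκ, hκ1, ⟨G, s₁, hG, hmod⟩, hc⟩ := hcond (δ / 2) (by positivity)
      have := Pool.Agent.NH62.AX.anc hν h hM (half_pos hδ) hκ hκ1 (fun t ht => (hG t ht).1)
        (fun t ht => (hG t ht).2) hmod hc t ht x
      linarith
    exact abs_nonpos_iff.1 (le_of_forall_pos_le_add key)

end Pool.Agent.Results.MP_09540e_an.SupercriticalInflow
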