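import Pool.Agent.NH62.RC.Fin

/-!
Axisymmetric Navier-Stokes flows with swirl, up to a possible blow-up time `T`: the circulation `Γ`
decays at the axis, uniformly up to the time `T`, if the inflow `-ρ u_ρ / ν` is at most `β(ρ)`, where
`β` may be unbounded, but is less than `2` in the mean over the scales, and where the inflow has to
be bounded only at the RECORDS of the circulation (the points and times at which the circulation is
not smaller than at any earlier time and at any point which is not farther from the axis), and among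
them only at those at which it is almost constant in the radial direction.

`V = Fin 3 → ℝ` with the maximum norm. See the claim file for the definitions.
-/

open MeasureTheory Set Metric Filter

namespace Pool.Agent.Results.MP_09540e_an.SwirlRecords

open H459R3.NS W221.NS Pool.Agent.TH305.AX

/-- The distance `ρ` of `x` to the axis of symmetry. -/
noncomputable def axisDist (x : V) : ℝ := √(x 0 ^ 2 + x 1 ^ 2)

/-- `ρ` times the radial component of the field `v`. -/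
def radial (v : V → V) (x : V) : ℝ := x 0 * v x 0 + x 1 * v x 1

/-- `ρ ∂_ρ f`. -/
noncomputable def radialDeriv (f : V → ℝ) (x : V) : ℝ := fderiv ℝ f x ![x 0, x 1, 0]

/-- `∂_z f`. -/
noncomputable def axialDeriv (f : V → ℝ) (x : V) : ℝ := fderiv ℝ f x ![0, 0, 1]

/-- The circulation was never larger, between the times `t₁` and `t`, than at the point `x` and the
time `t`, at all points whose distance to the axis is at most the one of `x`. -/
def IsRecord (u : ℝ → V → V) (t₁ t : ℝ) (x : V) : Prop :=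
  ∀ t' ∈ Icc t₁ t, ∀ y, axisDist y ≤ axisDist x → |circ (u t') y| ≤ |circ (u t) x|

/-- `∫_s^{r₀} (2 - β(τ)) dτ / τ`. -/
noncomputable def deficit (β : ℝ → ℝ) (r₀ s : ℝ) : ℝ := ∫ τ in s..r₀, (2 - β τ) / τ

/-- `h(r) = ∫_0^r exp (-deficit s) ds / s`. -/
noncomputable def weight (β : ℝ → ℝ) (r₀ r : ℝ) : ℝ :=
  ∫ s in (0 : ℝ)..r, Real.exp (-deficit β r₀ s) / s

/-- The integral which defines the weight is finite. -/
def FiniteWeight (β : ℝ → ℝ) (r₀ : ℝ) : Prop :=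
  IntervalIntegrable (fun s => Real.exp (-deficit β r₀ s) / s) volume 0 r₀

/-- `B ≥ 0` has a bounded primitive on `[t₁, T)`. -/
def Strain (t₁ T : ℝ) (B : ℝ → ℝ) : Prop :=
  ∃ (J : ℝ → ℝ) (K : ℝ), ∀ t ∈ Ico t₁ T, HasDerivAt J (B t) t ∧ 0 ≤ B t ∧ J t ≤ K

/-- First, let `(u, p)` be a smooth axisymmetric solution of the Navier-Stokes equations with
viscosity `ν` on `[0, T) × ℝ³` which tends to zero at infinity (`AxSol`; `T` may be the blow-up
time), with circulation `Γ = circ (u t)`. Let `β ≥ 0` be continuous on `(0, r₀]` with a finite weight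
`h`, let `Γ` be bounded on `ρ = r₀` and `|Γ| ≤ M ρ ^ 2` at the time `t₁`, `ρ ≤ r₀`, and let `K` be any
constant. If `ρ u_ρ ≥ -ν β(ρ) - B(t) ρ ^ 2` at all records `(t, x)` with `0 < ρ < r₀`,
`|Γ| > K h(ρ)`, `∂_z Γ = 0` and `ρ ∂_ρ |Γ| ≤ (ρ h'(ρ) / h(ρ)) |Γ|`, then `|Γ| ≤ A h(ρ)` for `ρ ≤ r₀`
and all times `t₁ ≤ t < T`, with `A` independent of the time.

Second, if `κ > 1` and the integral of `(2 - β(τ)) / τ` from `s` to `r₀ < 1` is at least
`κ log |log s| - C`, then the weight is finite and at most `C' |log ρ| ^ (1 - κ)`.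

Third, the weight of `β(ρ) = 2 - κ / |log ρ|` is `C'' |log ρ| ^ (1 - κ)`, and
`ρ h' / h = (κ - 1) / |log ρ|`. -/
theorem result (ν : ℝ) (hν : 0 < ν) :
    (∀ (T : ℝ) (u : ℝ → V → V) (p : ℝ → V → ℝ), AxSol ν T u p →
      ∀ (t₁ r₀ M K : ℝ) (β B : ℝ → ℝ), 0 ≤ t₁ → 0 < r₀ → ContinuousOn β (Ioc 0 r₀) →
      (∀ r ∈ Ioc 0 r₀, 0 ≤ β r) → FiniteWeight β r₀ → Strain t₁ T B →
      (∀ t ∈ Ico t₁ T, ∀ x, axisDist x = r₀ → |circ (u t) x| ≤ M) →
      (∀ x, axisDist x ≤ r₀ → |circ (u t₁) x| ≤ M * axisDist x ^ 2) →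
      (∀ t ∈ Ioo t₁ T, ∀ x, 0 < axisDist x → axisDist x < r₀ →
        K * weight β r₀ (axisDist x) < |circ (u t) x| → IsRecord u t₁ t x →
        axialDeriv (circ (u t)) x = 0 →
        circ (u t) x * radialDeriv (circ (u t)) x
          ≤ Real.exp (-deficit β r₀ (axisDist x)) / weight β r₀ (axisDist x)
            * circ (u t) x ^ 2 →
        -(ν * β (axisDist x)) - B t * axisDist x ^ 2 ≤ radial (u t) x) →
      ∃ A : ℝ, ∀ t ∈ Ico t₁ T, ∀ x, axisDist x ≤ r₀ →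
        |circ (u t) x| ≤ A * weight β r₀ (axisDist x)) ∧
    (∀ (β : ℝ → ℝ) (r₀ κ C : ℝ), ContinuousOn β (Ioc 0 r₀) → 0 < r₀ → r₀ < 1 → 1 < κ →
      (∀ s ∈ Ioo 0 r₀, κ * Real.log |Real.log s| - C ≤ deficit β r₀ s) →
      FiniteWeight β r₀ ∧ ∀ ρ ∈ Ioo 0 r₀,
        weight β r₀ ρ ≤ Real.exp C / (κ - 1) * |Real.log ρ| ^ (1 - κ)) ∧
    ∀ (β : ℝ → ℝ) (r₀ κ : ℝ), 0 < r₀ → r₀ < 1 → 1 < κ →
      (∀ s ∈ Ioc 0 r₀, β s = 2 - κ / |Real.log s|) →
      ∀ ρ ∈ Ioo 0 r₀, weight β r₀ ρ = |Real.log r₀| ^ κ / (κ - 1) * |Real.log ρ| ^ (1 - κ) ∧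
        Real.exp (-deficit β r₀ ρ) / weight β r₀ ρ = (κ - 1) / |Real.log ρ| := by
  refine ⟨?_, fun β r₀ κ C hβ hr₀ hr1 hκ h => Pool.Agent.NH62.RC.crit hβ hr₀ hr1 hκ h,
    fun β r₀ κ hr₀ hr1 hκ h => Pool.Agent.NH62.RC.crit_eq hr₀ hr1 hκ h⟩
  intro T u p h t₁ r₀ M K β B ht₁ hr₀ hβ hβ0 hint ⟨J, K', hJ⟩ hM hin hrec
  exact Pool.Agent.NH62.RC.fin (K := K') (K₀ := K) (M := M) hν h ht₁ hr₀ hβ hβ0 hint
    (fun t ht => (hJ t ht).1) (fun t ht => (hJ t ht).2.1) (fun t ht => (hJ t ht).2.2) hM hin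
    (fun t ht x h0 h1 h2 h3 h4 h5 => hrec t ht x h0 h1 h2 h3 h4 h5)

end Pool.Agent.Results.MP_09540e_an.SwirlRecords
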